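import Pool.Agent.J6H54.CH.Stm

/-!
# CH-30: hyperbolic integral matrices of size two
-/

set_option autoImplicit false

namespace Pool.Agent.J6H95.CH30

open Pool.Agent.J6H54.CH

theorem exists_root (t δ : ℤ) (hδ : δ = 1 ∨ δ = -1) (ht : 2 < |t|) :
    ∃ l : ℝ, l ^ 2 = t * l - δ ∧ 1 < |l| := by
  have hd : (4 : ℝ) * δ ≤ 4 := by
    rcases hδ with h | h <;> rw [h] <;> norm_num
  have ht3 : (3 : ℝ) ≤ |(t : ℝ)| := by
    have h : (3 : ℤ) ≤ |t| := ht
    exact_mod_cast h
  have ht9 : (9 : ℝ) ≤ (t : ℝ) ^ 2 := by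
    rw [← sq_abs]
    nlinarith
  have hD : (0 : ℝ) ≤ (t : ℝ) ^ 2 - 4 * δ := by linarith
  have hs := Real.sq_sqrt hD
  have hs0 := Real.sqrt_nonneg ((t : ℝ) ^ 2 - 4 * δ)
  set s := Real.sqrt ((t : ℝ) ^ 2 - 4 * δ) with hsdef
  rcases le_total 0 (t : ℝ) with h | h
  · rw [abs_of_nonneg h] at ht3
    refine ⟨(t + s) / 2, by nlinarith, ?_⟩
    rw [abs_of_nonneg (by linarith)]
    linarith
  · rw [abs_of_nonpos h] at ht3
    refine ⟨(t - s) / 2, by nlinarith, ?_⟩
    rw [abs_of_nonpos (by linarith)]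
    linarith

theorem core (σ : (Fin 2 → ℤ) ≃ₗ[ℤ] (Fin 2 → ℤ)) (a b c d δ : ℤ)
    (h0 : ∀ x, (σ x) 0 = a * x 0 + b * x 1) (h1 : ∀ x, (σ x) 1 = c * x 0 + d * x 1)
    (hδ : a * d - b * c = δ) (hδ' : δ = 1 ∨ δ = -1) (ht : 2 < |a + d|) :
    ∃ (p q : (Fin 2 → ℤ) → ℝ) (κ M C0 : ℝ), Hyp σ p q κ M C0 := by
  obtain ⟨l, hl, hl1⟩ := exists_root (a + d) δ hδ' ht
  push_cast at hl
  have hδr : (a : ℝ) * d - b * c = δ := by exact_mod_cast hδ
  -- the other root
  obtain ⟨m, hm⟩ : ∃ m : ℝ, m = (a + d) - l := ⟨_, rfl⟩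
  have hlm : l * m = δ := by rw [hm]; linear_combination -hl
  have hm2 : m ^ 2 = (a + d) * m - δ := by rw [hm]; linear_combination hl
  have habs : |l| * |m| = 1 := by
    rw [← abs_mul, hlm]
    rcases hδ' with h | h <;> rw [h] <;> norm_num
  have hl0 : 0 < |l| := by linarith
  have hm0 : 0 < |m| := by
    rcases (abs_nonneg m).lt_or_eq with h | h
    · exact h
    · rw [← h, mul_zero] at habs
      norm_num at habs
  have hm1 : |m| < 1 := by nlinarith
  have hc : c ≠ 0 := by
    rintro rfl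
    rw [mul_zero, sub_zero] at hδ
    have hu : IsUnit (a * d) := by
      rw [hδ]
      rcases hδ' with h | h <;> rw [h]
      · exact isUnit_one
      · exact isUnit_one.neg
    have ha := Int.isUnit_iff.1 (isUnit_of_mul_isUnit_left hu)
    have hd := Int.isUnit_iff.1 (isUnit_of_mul_isUnit_right hu)
    rcases ha with rfl | rfl <;> rcases hd with rfl | rfl <;> norm_num at ht
  have hcr : (c : ℝ) ≠ 0 := by exact_mod_cast hc
  have hne : l - m ≠ 0 := by
    intro h
    have : l = m := by linarith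
    rw [this] at hl1
    linarith
  let L : (Fin 2 → ℤ) → ℝ := fun x => c * x 0 + (l - a) * x 1
  let L' : (Fin 2 → ℤ) → ℝ := fun x => c * x 0 + (m - a) * x 1
  have hLσ : ∀ x, L (σ x) = l * L x := by
    intro x
    change (c : ℝ) * ((σ x 0 : ℤ) : ℝ) + (l - a) * ((σ x 1 : ℤ) : ℝ) =
      l * (c * x 0 + (l - a) * x 1)
    rw [h0, h1]
    push_cast
    linear_combination (-(x 1 : ℝ)) * hl - (x 1 : ℝ) * hδr
  have hLσ' : ∀ x, L' (σ x) = m * L' x := by
    intro x
    change (c : ℝ) * ((σ x 0 : ℤ) : ℝ) + (m - a) * ((σ x 1 : ℤ) : ℝ) =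
      m * (c * x 0 + (m - a) * x 1)
    rw [h0, h1]
    push_cast
    linear_combination (-(x 1 : ℝ)) * hm2 - (x 1 : ℝ) * hδr
  have hadd : ∀ x y, L (x + y) = L x + L y := by
    intro x y
    change (c : ℝ) * ((x 0 + y 0 : ℤ) : ℝ) + (l - a) * ((x 1 + y 1 : ℤ) : ℝ) = _
    push_cast
    change _ = ((c : ℝ) * x 0 + (l - a) * x 1) + (c * y 0 + (l - a) * y 1)
    ring
  have hadd' : ∀ x y, L' (x + y) = L' x + L' y := by
    intro x y
    change (c : ℝ) * ((x 0 + y 0 : ℤ) : ℝ) + (m - a) * ((x 1 + y 1 : ℤ) : ℝ) = _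
    push_cast
    change _ = ((c : ℝ) * x 0 + (m - a) * x 1) + (c * y 0 + (m - a) * y 1)
    ring
  have hneg : ∀ x, L (-x) = - L x := by
    intro x
    change (c : ℝ) * ((-(x 0) : ℤ) : ℝ) + (l - a) * ((-(x 1) : ℤ) : ℝ) =
      -(c * x 0 + (l - a) * x 1)
    push_cast
    ring
  have hneg' : ∀ x, L' (-x) = - L' x := by
    intro x
    change (c : ℝ) * ((-(x 0) : ℤ) : ℝ) + (m - a) * ((-(x 1) : ℤ) : ℝ) =
      -(c * x 0 + (m - a) * x 1)
    push_cast
    ring
  have hzero : L 0 = 0 := by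
    change (c : ℝ) * ((0 : ℤ) : ℝ) + (l - a) * ((0 : ℤ) : ℝ) = 0
    simp
  have hzero' : L' 0 = 0 := by
    change (c : ℝ) * ((0 : ℤ) : ℝ) + (m - a) * ((0 : ℤ) : ℝ) = 0
    simp
  have hdiff : ∀ x, L x - L' x = (l - m) * x 1 := by
    intro x
    change ((c : ℝ) * x 0 + (l - a) * x 1) - (c * x 0 + (m - a) * x 1) = _
    ring
  have hσσ : ∀ x, σ (σ⁻¹ x) = x := fun x => σ.apply_symm_apply x
  have hinv : ∀ x, |L (σ⁻¹ x)| = |m| * |L x| := by
    intro x
    have h := hLσ (σ⁻¹ x)
    rw [hσσ] at h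
    rw [h, abs_mul, ← mul_assoc, mul_comm |m|, habs, one_mul]
  have hinv' : ∀ x, |L' (σ⁻¹ x)| = |l| * |L' x| := by
    intro x
    have h := hLσ' (σ⁻¹ x)
    rw [hσσ] at h
    rw [h, abs_mul, ← mul_assoc, habs, one_mul]
  refine ⟨fun x => |L x|, fun x => |L' x|, |m|, |l|, |(c : ℝ)| + |l - a| + |m - a| + 1, ?_⟩
  refine
    { κ_pos := hm0
      κ_lt := hm1
      one_le_M := hl1.le
      one_le_C0 := by
        have h1 := abs_nonneg (c : ℝ)
        have h2 := abs_nonneg (l - a)
        have h3 := abs_nonneg (m - a)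
        linarith
      p_nonneg := fun x => abs_nonneg _
      q_nonneg := fun x => abs_nonneg _
      p_zero := by simp only [hzero, abs_zero]
      q_zero := by simp only [hzero', abs_zero]
      p_neg := fun x => by simp only [hneg, abs_neg]
      q_neg := fun x => by simp only [hneg', abs_neg]
      p_add := fun x y => by simp only [hadd]; exact abs_add_le _ _
      q_add := fun x y => by simp only [hadd']; exact abs_add_le _ _
      p_contr := fun x => (hinv x).le
      q_contr := fun x => by simp only [hLσ', abs_mul]; exact le_rfl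
      p_grow := fun x => by simp only [hLσ, abs_mul]; exact le_rfl
      q_grow := fun x => (hinv' x).le
      fin := ?_
      sep := ?_
      appr := ?_
      nontriv := ⟨fun _ => 1, fun h => one_ne_zero (congrFun h 0)⟩ }
  · -- finiteness
    intro B
    obtain ⟨N, hN⟩ := exists_nat_gt (2 * B / |l - m|)
    obtain ⟨K, hK⟩ := exists_nat_gt ((B + |l - a| * N) / |(c : ℝ)|)
    have hlm0 : 0 < |l - m| := abs_pos.2 hne
    have hc0 : 0 < |(c : ℝ)| := abs_pos.2 hcr
    refine (Set.Finite.pi (t := fun i : Fin 2 => if i = 0 then Set.Icc (-(K : ℤ)) K else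
      Set.Icc (-(N : ℤ)) N) ?_).subset ?_
    · intro i
      split_ifs
      · exact Set.finite_Icc _ _
      · exact Set.finite_Icc _ _
    · rintro x ⟨hx1, hx2⟩
      have e1 : |l - m| * |(x 1 : ℝ)| ≤ 2 * B := by
        rw [← abs_mul, ← hdiff]
        calc |L x - L' x| ≤ |L x| + |L' x| := abs_sub _ _
          _ ≤ 2 * B := by linarith
      have e2 : |(x 1 : ℝ)| < N := by
        refine lt_of_le_of_lt ?_ hN
        rw [le_div_iff₀ hlm0]
        linarith
      have e3 : |(c : ℝ)| * |(x 0 : ℝ)| ≤ B + |l - a| * N := by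
        rw [← abs_mul]
        have e4 : (c : ℝ) * x 0 = L x - (l - a) * x 1 := by
          change _ = ((c : ℝ) * x 0 + (l - a) * x 1) - (l - a) * x 1
          ring
        rw [e4]
        calc |L x - (l - a) * x 1| ≤ |L x| + |(l - a) * x 1| := abs_sub _ _
          _ ≤ B + |l - a| * N := by
            rw [abs_mul]
            have := mul_le_mul_of_nonneg_left e2.le (abs_nonneg (l - a))
            linarith
      have e5 : |(x 0 : ℝ)| < K := by
        refine lt_of_le_of_lt ?_ hK
        rw [le_div_iff₀ hc0]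
        linarith
      have f1 : |x 1| < (N : ℤ) := by exact_mod_cast e2
      have f0 : |x 0| < (K : ℤ) := by exact_mod_cast e5
      rw [abs_lt] at f1 f0
      intro i _
      fin_cases i
      · simp only [Fin.zero_eta, if_true, Set.mem_Icc]
        exact ⟨f0.1.le, f0.2.le⟩
      · simp only [Fin.mk_one, one_ne_zero, if_false, Set.mem_Icc]
        exact ⟨f1.1.le, f1.2.le⟩
  · -- separation
    intro x hx hy
    have e1 : L x = 0 := abs_eq_zero.1 hx
    have e2 : L' x = 0 := abs_eq_zero.1 hy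
    have e3 := hdiff x
    rw [e1, e2, sub_zero] at e3
    have e4 : (x 1 : ℝ) = 0 := by
      rcases mul_eq_zero.1 e3.symm with h | h
      · exact absurd h hne
      · exact h
    have e5 : (c : ℝ) * x 0 = 0 := by
      have : (c : ℝ) * x 0 + (l - a) * x 1 = 0 := e1
      rw [e4, mul_zero, add_zero] at this
      exact this
    have e6 : (x 0 : ℝ) = 0 := by
      rcases mul_eq_zero.1 e5 with h | h
      · exact absurd h hcr
      · exact h
    funext i
    fin_cases i
    · exact_mod_cast e6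
    · exact_mod_cast e4
  · -- approximation
    intro x y
    obtain ⟨z1, hz1⟩ : ∃ z1 : ℝ, z1 = (L x - L' y) / (l - m) := ⟨_, rfl⟩
    obtain ⟨z0, hz0⟩ : ∃ z0 : ℝ, z0 = (L x - (l - a) * z1) / c := ⟨_, rfl⟩
    have g1 : c * z0 + (l - a) * z1 = L x := by
      rw [hz0]
      field_simp
      ring
    have g2 : c * z0 + (m - a) * z1 = L' y := by
      have : c * z0 + (m - a) * z1 = L x - (l - m) * z1 := by rw [← g1]; ring
      rw [this, hz1]
      field_simp
      ring
    have r0 := abs_sub_round z0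
    have r1 := abs_sub_round z1
    refine ⟨![round z0, round z1], ?_, ?_⟩
    · have e : L (x - ![round z0, round z1]) = c * (z0 - round z0) + (l - a) * (z1 - round z1) := by
        have e1 : L (x - ![round z0, round z1]) = L x - L ![round z0, round z1] := by
          rw [sub_eq_add_neg, hadd, hneg]
          ring
        rw [e1, ← g1]
        change _ - ((c : ℝ) * ((round z0 : ℤ) : ℝ) + (l - a) * ((round z1 : ℤ) : ℝ)) = _
        ring
      change |L (x - ![round z0, round z1])| ≤ _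
      rw [e]
      refine (abs_add_le _ _).trans ?_
      rw [abs_mul, abs_mul]
      have h1 := abs_nonneg (c : ℝ)
      have h2 := abs_nonneg (l - a)
      have h3 := abs_nonneg (m - a)
      nlinarith
    · have e : L' (y - ![round z0, round z1]) = c * (z0 - round z0) + (m - a) * (z1 - round z1) := by
        have e1 : L' (y - ![round z0, round z1]) = L' y - L' ![round z0, round z1] := by
          rw [sub_eq_add_neg, hadd', hneg']
          ring
        rw [e1, ← g2]
        change _ - ((c : ℝ) * ((round z0 : ℤ) : ℝ) + (m - a) * ((round z1 : ℤ) : ℝ)) = _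
        ring
      change |L' (y - ![round z0, round z1])| ≤ _
      rw [e]
      refine (abs_add_le _ _).trans ?_
      rw [abs_mul, abs_mul]
      have h1 := abs_nonneg (c : ℝ)
      have h2 := abs_nonneg (l - a)
      have h3 := abs_nonneg (m - a)
      nlinarith

theorem m30 : S_two := by
  intro σ ht
  have htr : LinearMap.trace ℤ (Fin 2 → ℤ) σ.toLinearMap =
      (LinearMap.toMatrix' σ.toLinearMap) 0 0 + (LinearMap.toMatrix' σ.toLinearMap) 1 1 := by
    rw [LinearMap.trace_eq_matrix_trace ℤ (Pi.basisFun ℤ (Fin 2)), LinearMap.toMatrix_eq_toMatrix',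
      Matrix.trace_fin_two]
  have hdet : IsUnit (LinearMap.toMatrix' σ.toLinearMap).det := by
    rw [LinearMap.det_toMatrix']
    exact LinearEquiv.isUnit_det' σ
  rw [Matrix.det_fin_two, Int.isUnit_iff] at hdet
  rw [htr] at ht
  have hv : ∀ (x : Fin 2 → ℤ) (i : Fin 2), (σ x) i =
      (LinearMap.toMatrix' σ.toLinearMap) i 0 * x 0 +
        (LinearMap.toMatrix' σ.toLinearMap) i 1 * x 1 := by
    intro x i
    have h := congrFun (LinearMap.toMatrix'_mulVec σ.toLinearMap x) i
    rw [← Fin.sum_univ_two (fun j => (LinearMap.toMatrix' σ.toLinearMap) i j * x j)]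
    exact h.symm
  exact core σ _ _ _ _ _ (fun x => hv x 0) (fun x => hv x 1) rfl hdet ht

end Pool.Agent.J6H95.CH30
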